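import Mathlib

/-!
# Totally focal and isoparametric submanifolds of Euclidean space: definitions
-/

set_option autoImplicit false

open scoped Topology ContDiff
open Filter Set

namespace Pool.Agent.H49.CE

/-- Euclidean space of dimension `n`. -/
abbrev R (n : ℕ) := EuclideanSpace ℝ (Fin n)

variable {m n : ℕ}

/-- The scalar product. -/
noncomputable def ip (v w : R n) : ℝ := inner ℝ v w

/-- The derivative of a map at `y` in the direction `Z`. -/
noncomputable def D (φ : R m → R n) (y Z : R m) : R n := fderiv ℝ φ y Z

/-- The second derivative of a map at `0` in the directions `Z`, `Z'`. -/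
noncomputable def DD (φ : R m → R n) (Z Z' : R m) : R n := D (fun y => D φ y Z') 0 Z

/-- The derivative of a real function at `y` in the direction `Z`. -/
noncomputable def d (f : R m → ℝ) (y Z : R m) : ℝ := fderiv ℝ f y Z

/-- The second derivative of a real function at `0` in the directions `Z`, `Z'`. -/
noncomputable def dd (f : R m → ℝ) (Z Z' : R m) : ℝ := d (fun y => d f y Z') 0 Z

/-- `φ` is smooth in a neighbourhood of `0`. -/
def Smooth (φ : R m → R n) : Prop := ∃ U ∈ 𝓝 (0 : R m), ContDiffOn ℝ ∞ φ U

/-- `φ` is a smooth local parametrization (defined near `0 ∈ ℝᵐ`) of the set `M ⊆ ℝⁿ` near its point `p`: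
it is smooth near `0`, `φ 0 = p`, it is an immersion at `0`, and it maps the neighbourhoods of `0` onto the neighbourhoods
of `p` in `M`. -/
structure Param (M : Set (R n)) (p : R n) (φ : R m → R n) : Prop where
  smooth : Smooth φ
  base : φ 0 = p
  immersion : ∀ Z, D φ 0 Z = 0 → Z = 0
  image : Filter.map φ (𝓝 0) = 𝓝[M] p

/-- `M` is an embedded smooth submanifold of `ℝⁿ` of dimension `m`: it has a smooth local parametrization near each
of its points. -/
def IsSubmanifold (m : ℕ) (M : Set (R n)) : Prop := ∀ p ∈ M, ∃ φ : R m → R n, Param M p φ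

/-- The squared distance from `a`, in the local parametrization `φ`. -/
noncomputable def sqDist (a : R n) (φ : R m → R n) (y : R m) : ℝ := ‖φ y - a‖ ^ 2

/-- `φ 0` is a critical point of the restriction to `M` of the squared distance from `a`
(where `φ` is a local parametrization of `M`). -/
def IsCrit (a : R n) (φ : R m → R n) : Prop := ∀ Z, d (sqDist a φ) 0 Z = 0

/-- The second derivative at `0` of the squared distance from `a`, in the local parametrization `φ`,
is a nondegenerate bilinear form. -/
def IsNondeg (a : R n) (φ : R m → R n) : Prop := ∀ Z, (∀ Z', dd (sqDist a φ) Z Z' = 0) → Z = 0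

/-- `M` is totally focal: for every `a ∈ ℝⁿ` the critical points on `M` of the squared distance from `a` are either all
nondegenerate or all degenerate. -/
def TotallyFocal (m : ℕ) (M : Set (R n)) : Prop := ∀ a : R n,
  (∀ p ∈ M, ∀ φ : R m → R n, Param M p φ → IsCrit a φ → IsNondeg a φ) ∨
  (∀ p ∈ M, ∀ φ : R m → R n, Param M p φ → IsCrit a φ → ¬ IsNondeg a φ)

/-- `v` is orthogonal to the tangent space of `M` at `φ 0`, where `φ` is a local parametrization. -/
def IsNormal (φ : R m → R n) (v : R n) : Prop := ∀ Z, ip v (D φ 0 Z) = 0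

/-- `ξ` is a smooth parallel normal field along the part `W` of `M`: at each point it is normal to `M` and its
derivatives in the directions tangent to `M` are tangent to `M`. -/
def IsParallel (m : ℕ) (M W : Set (R n)) (ξ : R n → R n) : Prop :=
  ∀ p ∈ W, ∀ φ : R m → R n, Param M p φ → Smooth (fun y => ξ (φ y)) ∧ IsNormal φ (ξ p) ∧
    ∀ Z, ∃ Z', D (fun y => ξ (φ y)) 0 Z = D φ 0 Z'

/-- The normal bundle of `M` is flat: every normal vector extends, near its base point, to a parallel
normal field. -/
def FlatNormalBundle (m : ℕ) (M : Set (R n)) : Prop :=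
  ∀ p ∈ M, ∀ v : R n, (∀ φ : R m → R n, Param M p φ → IsNormal φ v) →
    ∃ (U : Set (R n)) (ξ : R n → R n), IsOpen U ∧ p ∈ U ∧ ξ p = v ∧ IsParallel m M (M ∩ U) ξ

/-- The multiplicity of `κ` as a principal curvature at `φ 0` in the direction of the normal vector `v`
(the dimension of the space of the vectors `Z` with `II_v(Z, ·) = κ I(Z, ·)`, where `I` is the first fundamental form and
`II_v` the second fundamental form in the direction `v`). -/
noncomputable def mult (φ : R m → R n) (v : R n) (κ : ℝ) : ℕ :=
  Module.finrank ℝ (Submodule.span ℝ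
    {Z : R m | ∀ Z', ip v (DD φ Z Z') = κ * ip (D φ 0 Z) (D φ 0 Z')})

/-- `M` is isoparametric: the normal bundle is flat, and the principal curvatures in the direction of any parallel
normal field (defined on a connected open part of `M`) are constant, with their multiplicities. -/
def Isoparametric (m : ℕ) (M : Set (R n)) : Prop :=
  FlatNormalBundle m M ∧
  ∀ (U : Set (R n)) (ξ : R n → R n), IsOpen U → IsPreconnected (M ∩ U) →
    IsParallel m M (M ∩ U) ξ → ∀ p ∈ M ∩ U, ∀ q ∈ M ∩ U, ∀ φ ψ : R m → R n,
      Param M p φ → Param M q ψ → ∀ κ : ℝ, mult φ (ξ p) κ = mult ψ (ξ q) κ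

/-- The surface `{(z², t z) : |z| = 1, t ∈ ℝ}` in `ℂ² = ℝ⁴`, parametrized by `z = exp(i x₀)`, `t = x₁`. -/
noncomputable def surf (x : R 2) : R 4 :=
  !₂[Real.cos (2 * x 0), Real.sin (2 * x 0), x 1 * Real.cos (x 0), x 1 * Real.sin (x 0)]

end Pool.Agent.H49.CE
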