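import Pool.Agent.H49.CE.Surf

/-!
# The surface is totally focal
-/

set_option autoImplicit false

open scoped Topology ContDiff RealInnerProductSpace
open Filter Set Real

namespace Pool.Agent.H49.CE

/-- the squared distance from `a`, in the global parameters -/
noncomputable def F (a : R 4) (x : R 2) : ℝ := ‖surf x - a‖ ^ 2

theorem F_eq (a : R 4) (x : R 2) : F a x = (cos (2 * x 0) - a 0) ^ 2 + (sin (2 * x 0) - a 1) ^ 2 +
    (x 1 * cos (x 0) - a 2) ^ 2 + (x 1 * sin (x 0) - a 3) ^ 2 := by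
  rw [F, EuclideanSpace.norm_sq_eq, Fin.sum_univ_four]
  simp only [Real.norm_eq_abs, sq_abs]
  rfl

/-- partial derivatives of `F` -/
noncomputable def F0 (a : R 4) (x : R 2) : ℝ :=
  4 * (a 0 * sin (2 * x 0) - a 1 * cos (2 * x 0)) + 2 * x 1 * (a 2 * sin (x 0) - a 3 * cos (x 0))
noncomputable def F1 (a : R 4) (x : R 2) : ℝ := 2 * x 1 - 2 * (a 2 * cos (x 0) + a 3 * sin (x 0))

noncomputable def F00 (a : R 4) (x : R 2) : ℝ :=
  8 * (a 0 * cos (2 * x 0) + a 1 * sin (2 * x 0)) + 2 * x 1 * (a 2 * cos (x 0) + a 3 * sin (x 0))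
noncomputable def F01 (a : R 4) (x : R 2) : ℝ := 2 * (a 2 * sin (x 0) - a 3 * cos (x 0))

theorem hasFDerivAt_F (a : R 4) (x : R 2) : HasFDerivAt (F a) (F0 a x • c0 + F1 a x • c1) x := by
  have h0 : HasFDerivAt (fun x : R 2 => x 0) c0 x := c0.hasFDerivAt
  have h1 : HasFDerivAt (fun x : R 2 => x 1) c1 x := c1.hasFDerivAt
  have e : F a = fun x : R 2 => (cos (2 * x 0) - a 0) ^ 2 + (sin (2 * x 0) - a 1) ^ 2 +
    (x 1 * cos (x 0) - a 2) ^ 2 + (x 1 * sin (x 0) - a 3) ^ 2 := funext (F_eq a)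
  rw [e]
  have k1 := (((h0.const_mul 2).cos).sub_const (a 0)).pow 2
  have k2 := (((h0.const_mul 2).sin).sub_const (a 1)).pow 2
  have k3 := ((h1.mul h0.cos).sub_const (a 2)).pow 2
  have k4 := ((h1.mul h0.sin).sub_const (a 3)).pow 2
  refine (((k1.add k2).add k3).add k4).congr_fderiv ?_
  ext Z
  simp only [F0, F1, c0, c1, add_apply, smul_apply, smul_eq_mul, PiLp.proj_apply, Nat.cast_ofNat,
    pow_one, Nat.add_one_sub_one, Nat.reduceSub, Pi.mul_apply, Pi.sub_apply]
  have hs := sin_sq_add_cos_sq (x 0)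
  linear_combination (2 * x 1 * Z 1) * hs

theorem fderiv_F (a : R 4) : fderiv ℝ (F a) = fun x => F0 a x • c0 + F1 a x • c1 :=
  funext fun x => (hasFDerivAt_F a x).fderiv

theorem hasFDerivAt_F0 (a : R 4) (x : R 2) :
    HasFDerivAt (F0 a) (F00 a x • c0 + F01 a x • c1) x := by
  have h0 : HasFDerivAt (fun x : R 2 => x 0) c0 x := c0.hasFDerivAt
  have h1 : HasFDerivAt (fun x : R 2 => x 1) c1 x := c1.hasFDerivAt
  have k1 := ((((h0.const_mul 2).sin).const_mul (a 0)).sub
    (((h0.const_mul 2).cos).const_mul (a 1))).const_mul 4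
  have k2 := (h1.const_mul 2).mul ((h0.sin.const_mul (a 2)).sub (h0.cos.const_mul (a 3)))
  refine (k1.add k2).congr_fderiv ?_
  ext Z
  simp only [F00, F01, c0, c1, add_apply, sub_apply, smul_apply, smul_eq_mul, PiLp.proj_apply,
    Pi.mul_apply, Pi.sub_apply, Pi.add_apply]
  ring

theorem hasFDerivAt_F1 (a : R 4) (x : R 2) :
    HasFDerivAt (F1 a) (F01 a x • c0 + (2 : ℝ) • c1) x := by
  have h0 : HasFDerivAt (fun x : R 2 => x 0) c0 x := c0.hasFDerivAt
  have h1 : HasFDerivAt (fun x : R 2 => x 1) c1 x := c1.hasFDerivAt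
  have k1 := (h1.const_mul 2).sub
    (((h0.cos.const_mul (a 2)).add (h0.sin.const_mul (a 3))).const_mul 2)
  refine k1.congr_fderiv ?_
  ext Z
  simp only [F01, c0, c1, add_apply, sub_apply, smul_apply, smul_eq_mul, PiLp.proj_apply,
    Pi.mul_apply, Pi.sub_apply, Pi.add_apply]
  ring

theorem D2F (a : R 4) (x Z W : R 2) : fderiv ℝ (fderiv ℝ (F a)) x Z W =
    (F00 a x * Z 0 + F01 a x * Z 1) * W 0 + (F01 a x * Z 0 + 2 * Z 1) * W 1 := by
  rw [fderiv_F]
  have h := ((hasFDerivAt_F0 a x).smul_const c0).add ((hasFDerivAt_F1 a x).smul_const c1)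
  have e : (fun x => F0 a x • c0 + F1 a x • c1) =
    (fun y => F0 a y • c0) + fun y => F1 a y • c1 := rfl
  rw [e, h.fderiv]
  simp [c0, c1]
  
/-- the two constants -/
noncomputable def g0 (a : R 4) : ℝ := 4 * a 0 + a 2 ^ 2 - a 3 ^ 2
noncomputable def g1 (a : R 4) : ℝ := 4 * a 1 + 2 * a 2 * a 3

theorem crit_iff {a : R 4} {x : R 2} (h : fderiv ℝ (F a) x = 0) :
    x 1 = a 2 * cos (x 0) + a 3 * sin (x 0) ∧
      g0 a * sin (2 * x 0) - g1 a * cos (2 * x 0) = 0 ∧
      2 * F00 a x - F01 a x ^ 2 = 4 * (g0 a * cos (2 * x 0) + g1 a * sin (2 * x 0)) := by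
  rw [fderiv_F] at h
  have e0 : F0 a x = 0 := by
    have := congrArg (fun L : R 2 →L[ℝ] ℝ => L (EuclideanSpace.single 0 1)) h
    simpa [c0, c1] using this
  have e1 : F1 a x = 0 := by
    have := congrArg (fun L : R 2 →L[ℝ] ℝ => L (EuclideanSpace.single 1 1)) h
    simpa [c0, c1] using this
  have ht : x 1 = a 2 * cos (x 0) + a 3 * sin (x 0) := by
    rw [F1] at e1
    linarith
  refine ⟨ht, ?_, ?_⟩
  · rw [F0, ht] at e0
    rw [g0, g1]
    rw [sin_two_mul, cos_two_mul'] at e0 ⊢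
    linear_combination e0
  · rw [F00, F01, g0, g1, ht, sin_two_mul, cos_two_mul']
    ring

theorem nondeg_iff {a : R 4} {x : R 2} (h : fderiv ℝ (F a) x = 0) :
    (∀ Z : R 2, (∀ W, fderiv ℝ (fderiv ℝ (F a)) x Z W = 0) → Z = 0) ↔
      ¬ (g0 a = 0 ∧ g1 a = 0) := by
  obtain ⟨-, h2, h3⟩ := crit_iff h
  constructor
  · rintro hn ⟨k0, k1⟩
    rw [k0, k1] at h3
    have h4 : 2 * F00 a x - F01 a x ^ 2 = 0 := by rw [h3]; ring
    have h5 := hn (!₂[2, -F01 a x] : R 2) (fun W => by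
      rw [D2F]
      simp
      linear_combination W 0 * h4)
    have h6 := congrArg (fun v : R 2 => v 0) h5
    norm_num at h6
  · intro hk Z hZ
    have e0 : F00 a x * Z 0 + F01 a x * Z 1 = 0 := by
      have := hZ (EuclideanSpace.single 0 1)
      rw [D2F] at this
      simpa using this
    have e1 : F01 a x * Z 0 + 2 * Z 1 = 0 := by
      have := hZ (EuclideanSpace.single 1 1)
      rw [D2F] at this
      simpa using this
    have h4 : (2 * F00 a x - F01 a x ^ 2) * Z 0 = 0 := by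
      linear_combination 2 * e0 - F01 a x * e1
    have h5 : 2 * F00 a x - F01 a x ^ 2 ≠ 0 := by
      rw [h3]
      intro h6
      apply hk
      have h7 : g0 a * cos (2 * x 0) + g1 a * sin (2 * x 0) = 0 := by linarith
      have hs := sin_sq_add_cos_sq (2 * x 0)
      constructor
      · linear_combination (-g0 a) * hs + sin (2 * x 0) * h2 + cos (2 * x 0) * h7
      · linear_combination (-g1 a) * hs - cos (2 * x 0) * h2 + sin (2 * x 0) * h7
    have hZ0 : Z 0 = 0 := by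
      rcases mul_eq_zero.1 h4 with h6 | h6
      · exact absurd h6 h5
      · exact h6
    have hZ1 : Z 1 = 0 := by
      rw [hZ0] at e1
      linarith
    ext i
    fin_cases i
    · exact hZ0
    · exact hZ1

theorem totallyFocal_surf : TotallyFocal 2 (range surf) := by
  intro a
  -- criticality and nondegeneracy in any parametrization
  have key : ∀ p ∈ range surf, ∀ φ : R 2 → R 4, Param (range surf) p φ → IsCrit a φ →
      (IsNondeg a φ ↔ ¬ (g0 a = 0 ∧ g1 a = 0)) := by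
    intro p _ φ hφ hc
    obtain ⟨x, χ, -, h0, hχ, hbij, hev⟩ := trans hφ
    have hF : ContDiffAt ℝ 2 (F a) x := by
      have h1 : ContDiff ℝ ∞ (F a) := by
        have h2 : ContDiff ℝ ∞ fun x => surf x - a := contDiff_surf.sub contDiff_const
        exact h2.norm_sq ℝ
      exact (h1.contDiffAt).of_le (WithTop.coe_le_coe.2 le_top)
    have hχ2 : ContDiffAt ℝ 2 χ 0 := hχ.of_le (WithTop.coe_le_coe.2 le_top)
    have hev2 : (fun y => ‖φ y - a‖ ^ 2) =ᶠ[𝓝 0] fun y => F a (χ y) := by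
      filter_upwards [hev] with y hy
      rw [hy]
      rfl
    have hcomp : HasFDerivAt (fun y => F a (χ y)) ((fderiv ℝ (F a) x).comp (fderiv ℝ χ 0)) 0 := by
      have h3 : HasFDerivAt (F a) (fderiv ℝ (F a) x) (χ 0) := by
        rw [h0]
        exact (hF.differentiableAt (by norm_num)).hasFDerivAt
      exact h3.comp (0 : R 2) (hχ2.differentiableAt (by norm_num)).hasFDerivAt
    have hcr : fderiv ℝ (F a) x = 0 := by
      ext Z
      obtain ⟨Z', rfl⟩ := hbij.2 Z
      have h1 := hc Z'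
      rw [d] at h1
      change fderiv ℝ (fun y => ‖φ y - a‖ ^ 2) 0 Z' = 0 at h1
      rw [hev2.fderiv_eq, hcomp.fderiv] at h1
      exact h1
    have hD2 : ∀ Z Z', dd (sqDist a φ) Z Z' =
        fderiv ℝ (fderiv ℝ (F a)) x (fderiv ℝ χ 0 Z) (fderiv ℝ χ 0 Z') := by
      intro Z Z'
      have hsm : ContDiffAt ℝ 2 (fun y => ‖φ y - a‖ ^ 2) 0 := by
        refine ContDiffAt.congr_of_eventuallyEq ?_ hev2
        refine ContDiffAt.comp (g := F a) (0 : R 2) ?_ hχ2
        rw [h0]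
        exact hF
      have hdd : dd (sqDist a φ) Z Z' = fderiv ℝ (fderiv ℝ (fun y => ‖φ y - a‖ ^ 2)) 0 Z Z' :=
        TotFoc.fderiv_D1_apply hsm Z Z'
      rw [hdd]
      have h4 : fderiv ℝ (fderiv ℝ (fun y => ‖φ y - a‖ ^ 2)) 0 =
          fderiv ℝ (fderiv ℝ (fun y => F a (χ y))) 0 := by
        have h5 : fderiv ℝ (fun y => ‖φ y - a‖ ^ 2) =ᶠ[𝓝 0] fderiv ℝ (fun y => F a (χ y)) :=
          hev2.fderiv
        exact h5.fderiv_eq
      rw [h4]
      have h6 := TotFoc.D2_comp (u := F a) (χ := χ) (z := (0 : R 2)) (by rw [h0]; exact hF) hχ2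
        (by rw [h0]; exact hcr) Z Z'
      rw [h0] at h6
      exact h6
    rw [← nondeg_iff hcr]
    constructor
    · intro hn Z hZ
      obtain ⟨Z', rfl⟩ := hbij.2 Z
      have h7 : Z' = 0 := hn Z' fun W => by
        rw [hD2]
        exact hZ _
      rw [h7, map_zero]
    · intro hn Z hZ
      have h8 : fderiv ℝ χ 0 Z = 0 := hn _ fun W => by
        obtain ⟨W', rfl⟩ := hbij.2 W
        rw [← hD2]
        exact hZ W'
      exact hbij.1 (by rw [h8, map_zero])
  by_cases hg : g0 a = 0 ∧ g1 a = 0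
  · right
    intro p hp φ hφ hc hn
    exact (key p hp φ hφ hc).1 hn hg
  · left
    intro p hp φ hφ hc
    exact (key p hp φ hφ hc).2 hg

end Pool.Agent.H49.CE
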