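import Pool.Agent.H49.CE.Surf

/-!
# The normal bundle of the surface is not flat
-/

set_option autoImplicit false

open scoped Topology ContDiff RealInnerProductSpace
open Filter Set Real

namespace Pool.Agent.H49.CE

theorem inner4 (v w : R 4) : ⟪v, w⟫ = v 0 * w 0 + v 1 * w 1 + v 2 * w 2 + v 3 * w 3 := by
  rw [PiLp.inner_apply, Fin.sum_univ_four]
  simp only [RCLike.inner_apply, conj_trivial]
  ring

/-- A parallel normal field vanishes. -/
theorem parallel_zero {U : Set (R 4)} (hU : IsOpen U) {ξ : R 4 → R 4}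
    (hξ : IsParallel 2 (range surf) (range surf ∩ U) ξ) (h0 : surf 0 ∈ U) :
    ξ (surf 0) 0 = 0 := by
  -- the field in the parameters
  set Ξ : R 2 → R 4 := fun x => ξ (surf x) with hΞ
  have hO : IsOpen (surf ⁻¹' U) := hU.preimage contDiff_surf.continuous
  have hprop : ∀ x ∈ surf ⁻¹' U, DifferentiableAt ℝ Ξ x ∧ (∀ Z, ⟪Ξ x, DX x Z⟫ = 0) ∧
      ∀ Z, ∃ Z', fderiv ℝ Ξ x Z = DX x Z' := by
    intro x hx
    obtain ⟨h1, h2, h3⟩ := hξ (surf x) ⟨⟨x, rfl⟩, hx⟩ (par x) (param_par x)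
    have hd : HasFDerivAt (par x) (DX x) 0 := by
      have := fderiv_par x 0
      rwa [add_zero] at this
    rw [IsNormal] at h2
    simp only [D, ip, hd.fderiv] at h2 h3
    -- `Ξ` is the composition with the translation
    have h4 : HasFDerivAt (fun y => ξ (par x y)) (fderiv ℝ (fun y => ξ (par x y)) 0) 0 :=
      ((h1.choose_spec.2.contDiffAt h1.choose_spec.1).differentiableAt (by simp)).hasFDerivAt
    have h5 : HasFDerivAt Ξ (fderiv ℝ (fun y => ξ (par x y)) 0) x := by
      have h6 : HasFDerivAt (fun y : R 2 => y - x) (ContinuousLinearMap.id ℝ (R 2)) x :=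
        (hasFDerivAt_id x).sub_const x
      have h7 : HasFDerivAt (fun y => ξ (par x y)) (fderiv ℝ (fun y => ξ (par x y)) 0) (x - x) := by
        rw [sub_self]
        exact h4
      have h8 := HasFDerivAt.comp (f := fun y : R 2 => y - x) x h7 h6
      have h9 : (fun y => ξ (par x y)) ∘ (fun y : R 2 => y - x) = Ξ := by
        funext y
        simp [par, hΞ]
      rw [h9] at h8
      exact h8
    refine ⟨h5.differentiableAt, h2, ?_⟩
    rw [h5.fderiv]
    exact h3
  -- the three relevant components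
  have hco : ∀ x ∈ surf ⁻¹' U, ∀ i : Fin 4,
      HasFDerivAt (fun y => Ξ y i) ((EuclideanSpace.proj i).comp (fderiv ℝ Ξ x)) x := by
    intro x hx i
    exact (EuclideanSpace.proj i : R 4 →L[ℝ] ℝ).hasFDerivAt.comp x (hprop x hx).1.hasFDerivAt
  set A : R 2 → ℝ := fun x => Ξ x 0 * cos (2 * x 0) + Ξ x 1 * sin (2 * x 0) with hA
  set D : R 2 → ℝ := fun x => Ξ x 1 * cos (2 * x 0) - Ξ x 0 * sin (2 * x 0) with hD
  set G : R 2 → ℝ := fun x => Ξ x 3 * cos (x 0) - Ξ x 2 * sin (x 0) with hG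
  -- normality
  have n1 : ∀ x ∈ surf ⁻¹' U, Ξ x 2 * cos (x 0) + Ξ x 3 * sin (x 0) = 0 := by
    intro x hx
    have := (hprop x hx).2.1 (EuclideanSpace.single 1 1)
    rw [DX_apply, inner4] at this
    simpa [s0, s1] using this
  have n2 : ∀ x ∈ surf ⁻¹' U, 2 * D x + x 1 * G x = 0 := by
    intro x hx
    have := (hprop x hx).2.1 (EuclideanSpace.single 0 1)
    rw [DX_apply, inner4] at this
    simp [s0, s1] at this
    rw [hD, hG]
    simp only
    linarith
  -- tangency of the derivatives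
  have t1 : ∀ x ∈ surf ⁻¹' U, ∀ Z, fderiv ℝ Ξ x Z 0 * cos (2 * x 0) +
      fderiv ℝ Ξ x Z 1 * sin (2 * x 0) = 0 := by
    intro x hx Z
    obtain ⟨Z', h⟩ := (hprop x hx).2.2 Z
    rw [h, DX_apply]
    simp [s0, s1]
    ring
  have t2 : ∀ x ∈ surf ⁻¹' U, ∀ Z, x 1 * (fderiv ℝ Ξ x Z 1 * cos (2 * x 0) -
      fderiv ℝ Ξ x Z 0 * sin (2 * x 0)) = 2 * (fderiv ℝ Ξ x Z 3 * cos (x 0) -
      fderiv ℝ Ξ x Z 2 * sin (x 0)) := by
    intro x hx Z
    obtain ⟨Z', h⟩ := (hprop x hx).2.2 Z
    rw [h, DX_apply]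
    simp [s0, s1]
    have e1 := sin_sq_add_cos_sq (2 * x 0)
    have e2 := sin_sq_add_cos_sq (x 0)
    linear_combination (2 * x 1 * Z' 0) * e1 - (2 * x 1 * Z' 0) * e2
  -- derivatives of the components
  have dA : ∀ x ∈ surf ⁻¹' U, HasFDerivAt A ((2 * D x) • c0) x := by
    intro x hx
    have k0 : HasFDerivAt (fun x : R 2 => x 0) c0 x := c0.hasFDerivAt
    have k := ((hco x hx 0).mul ((k0.const_mul 2).cos)).add ((hco x hx 1).mul ((k0.const_mul 2).sin))
    refine k.congr_fderiv ?_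
    ext Z
    have := t1 x hx Z
    simp [c0, hD]
    linear_combination this
  have dD : ∀ x ∈ surf ⁻¹' U, ∃ L : R 2 →L[ℝ] ℝ, HasFDerivAt D L x ∧ ∀ Z, L Z =
      (fderiv ℝ Ξ x Z 1 * cos (2 * x 0) - fderiv ℝ Ξ x Z 0 * sin (2 * x 0)) - 2 * A x * Z 0 := by
    intro x hx
    have k0 : HasFDerivAt (fun x : R 2 => x 0) c0 x := c0.hasFDerivAt
    have k := ((hco x hx 1).mul ((k0.const_mul 2).cos)).sub ((hco x hx 0).mul ((k0.const_mul 2).sin))
    refine ⟨_, k, fun Z => ?_⟩
    simp [c0, hA]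
    ring
  have dG : ∀ x ∈ surf ⁻¹' U, ∃ L : R 2 →L[ℝ] ℝ, HasFDerivAt G L x ∧ ∀ Z, L Z =
      fderiv ℝ Ξ x Z 3 * cos (x 0) - fderiv ℝ Ξ x Z 2 * sin (x 0) := by
    intro x hx
    have k0 : HasFDerivAt (fun x : R 2 => x 0) c0 x := c0.hasFDerivAt
    have k := ((hco x hx 3).mul k0.cos).sub ((hco x hx 2).mul k0.sin)
    refine ⟨_, k, fun Z => ?_⟩
    have := n1 x hx
    simp [c0]
    linear_combination (-(Z 0)) * this
  -- `G = 0`
  have hG0 : ∀ x ∈ surf ⁻¹' U, G x = 0 := by
    intro x hx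
    obtain ⟨LD, hLD, hLD'⟩ := dD x hx
    obtain ⟨LG, hLG, hLG'⟩ := dG x hx
    -- symmetry of the second derivative of `A`
    have hsymm : LD (EuclideanSpace.single 1 1) = 0 := by
      have h1 : ∀ᶠ y in 𝓝 x, HasFDerivAt A ((2 * D y) • c0) y := by
        filter_upwards [hO.mem_nhds hx] with y hy using dA y hy
      have h2 : HasFDerivAt (fun y => (2 * D y) • c0) ((((2 : ℝ) • LD)).smulRight c0) x := by
        exact (hLD.const_mul 2).smul_const c0
      have h3 := second_derivative_symmetric_of_eventually h1 h2 (EuclideanSpace.single 1 1)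
        (EuclideanSpace.single 0 1)
      simpa [c0] using h3
    -- differentiate `2 D + t G = 0` in the direction `t`
    have h4 : HasFDerivAt (fun y : R 2 => 2 * D y + y 1 * G y)
        ((2 : ℝ) • LD + (x 1 • LG + G x • c1)) x := by
      have k1 : HasFDerivAt (fun y : R 2 => y 1) c1 x := c1.hasFDerivAt
      exact (hLD.const_mul 2).add (k1.mul hLG)
    have h5 : HasFDerivAt (fun y : R 2 => 2 * D y + y 1 * G y) (0 : R 2 →L[ℝ] ℝ) x := by
      refine (hasFDerivAt_const (0 : ℝ) x).congr_of_eventuallyEq ?_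
      filter_upwards [hO.mem_nhds hx] with y hy using n2 y hy
    have h6 := congrArg (fun L : R 2 →L[ℝ] ℝ => L (EuclideanSpace.single 1 1)) (h4.unique h5)
    simp [c1, hsymm] at h6
    have h7 := hLD' (EuclideanSpace.single 1 1)
    rw [hsymm] at h7
    have h8 := t2 x hx (EuclideanSpace.single 1 1)
    have h9 := hLG' (EuclideanSpace.single 1 1)
    simp at h7
    rw [← h9, ← h7] at h8
    have h10 : LG (EuclideanSpace.single 1 1) = 0 := by linarith
    rw [h10] at h6
    linarith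
  have hD0 : ∀ x ∈ surf ⁻¹' U, D x = 0 := by
    intro x hx
    have := n2 x hx
    rw [hG0 x hx] at this
    linarith
  -- `t A = 0`
  have hA0 : ∀ x ∈ surf ⁻¹' U, x 1 * A x = 0 := by
    intro x hx
    obtain ⟨LD, hLD, hLD'⟩ := dD x hx
    obtain ⟨LG, hLG, hLG'⟩ := dG x hx
    have h1 : LD = 0 := by
      refine hLD.unique ((hasFDerivAt_const (0 : ℝ) x).congr_of_eventuallyEq ?_)
      filter_upwards [hO.mem_nhds hx] with y hy using hD0 y hy
    have h2 : LG = 0 := by
      refine hLG.unique ((hasFDerivAt_const (0 : ℝ) x).congr_of_eventuallyEq ?_)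
      filter_upwards [hO.mem_nhds hx] with y hy using hG0 y hy
    have h3 := hLD' (EuclideanSpace.single 0 1)
    have h4 := hLG' (EuclideanSpace.single 0 1)
    have h5 := t2 x hx (EuclideanSpace.single 0 1)
    rw [h1] at h3
    rw [h2] at h4
    rw [← h4] at h5
    simp at h3
    have h6 : fderiv ℝ Ξ x (EuclideanSpace.single 0 1) 1 * cos (2 * x 0) -
      fderiv ℝ Ξ x (EuclideanSpace.single 0 1) 0 * sin (2 * x 0) = 2 * A x := by linarith
    rw [h6] at h5
    simp at h5
    rcases h5 with h5 | h5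
    · rw [h5, zero_mul]
    · rw [h5, mul_zero]
  -- limit `t → 0`
  have h0' : (0 : R 2) ∈ surf ⁻¹' U := h0
  have hcA : ContinuousAt A 0 := (dA 0 h0').continuousAt
  have hline : Tendsto (fun t : ℝ => t • (EuclideanSpace.single 1 1 : R 2)) (𝓝[≠] 0) (𝓝 0) := by
    have h1 : Continuous fun t : ℝ => t • (EuclideanSpace.single 1 1 : R 2) :=
      continuous_id.smul continuous_const
    have h2 := h1.tendsto 0
    rw [zero_smul] at h2
    exact h2.mono_left nhdsWithin_le_nhds
  have h1 : Tendsto (fun t : ℝ => A (t • (EuclideanSpace.single 1 1 : R 2))) (𝓝[≠] 0)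
    (𝓝 (A 0)) := hcA.tendsto.comp hline
  have h2 : ∀ᶠ t in 𝓝[≠] (0 : ℝ), A (t • (EuclideanSpace.single 1 1 : R 2)) = 0 := by
    have h3 := hline.eventually (hO.mem_nhds h0')
    filter_upwards [h3, self_mem_nhdsWithin] with t ht ht'
    have h4 := hA0 _ ht
    have h5 : (t • (EuclideanSpace.single 1 1 : R 2)) 1 = t := by simp
    rw [h5] at h4
    rcases mul_eq_zero.1 h4 with h | h
    · exact absurd h ht'
    · exact h
  have h3 : A 0 = 0 := by
    refine tendsto_nhds_unique h1 ?_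
    exact (tendsto_const_nhds).congr' (h2.mono fun t ht => ht.symm)
  have h4 : A 0 = ξ (surf 0) 0 := by
    rw [hA]
    simp [hΞ]
  rw [← h4, h3]

theorem not_flat : ¬ FlatNormalBundle 2 (range surf) := by
  intro h
  obtain ⟨U, ξ, hU, hp, hv, hξ⟩ := h (surf 0) ⟨0, rfl⟩ (EuclideanSpace.single 0 1) (by
    intro φ hφ Z
    rw [ip, D]
    obtain ⟨x, χ, hx, h0, hχ, -, hev⟩ := trans hφ
    have h1 : fderiv ℝ φ 0 = (DX x).comp (fderiv ℝ χ 0) := by
      have h2 := hasFDerivAt_surf x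
      rw [← h0] at h2
      have h3 := h2.comp (0 : R 2) (hχ.differentiableAt (by simp)).hasFDerivAt
      rw [h0] at h3
      exact (h3.congr_of_eventuallyEq hev).fderiv
    rw [h1, ContinuousLinearMap.comp_apply, DX_apply, inner4]
    have h4 := congrArg (fun v : R 4 => v 0) hx
    have h5 : cos (2 * x 0) = 1 := by
      simpa [surf] using h4
    have h6 : sin (2 * x 0) = 0 := by
      have := sin_sq_add_cos_sq (2 * x 0)
      rw [h5] at this
      have h7 : sin (2 * x 0) ^ 2 = 0 := by linarith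
      exact pow_eq_zero_iff two_ne_zero |>.1 h7
    simp [s0, s1, h6])
  have h1 := parallel_zero hU hξ hp
  rw [hv] at h1
  simp at h1

end Pool.Agent.H49.CE
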