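import Pool.Agent.H49.CE.Defs
import Pool.Agent.H49.TF.Calc

/-!
# The surface: local parametrizations
-/

set_option autoImplicit false

open scoped Topology ContDiff
open Filter Set Real

namespace Pool.Agent.H49.CE

theorem surf_apply0 (x : R 2) : surf x 0 = cos (2 * x 0) := rfl
theorem surf_apply1 (x : R 2) : surf x 1 = sin (2 * x 0) := rfl
theorem surf_apply2 (x : R 2) : surf x 2 = x 1 * cos (x 0) := rfl
theorem surf_apply3 (x : R 2) : surf x 3 = x 1 * sin (x 0) := rfl

/-- first coordinate on the plane -/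
noncomputable def c0 : R 2 →L[ℝ] ℝ := EuclideanSpace.proj (0 : Fin 2)
noncomputable def c1 : R 2 →L[ℝ] ℝ := EuclideanSpace.proj (1 : Fin 2)

theorem c0_apply (x : R 2) : c0 x = x 0 := rfl
theorem c1_apply (x : R 2) : c1 x = x 1 := rfl

theorem contDiff_surf : ContDiff ℝ ∞ surf := by
  rw [contDiff_euclidean]
  have h0 : ContDiff ℝ ∞ fun x : R 2 => x 0 := c0.contDiff
  have h1 : ContDiff ℝ ∞ fun x : R 2 => x 1 := c1.contDiff
  intro i
  fin_cases i
  · exact (contDiff_const.mul h0).cos
  · exact (contDiff_const.mul h0).sin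
  · exact h1.mul h0.cos
  · exact h1.mul h0.sin

/-- the partial derivatives -/
noncomputable def s0 (x : R 2) : R 4 :=
  !₂[-2 * sin (2 * x 0), 2 * cos (2 * x 0), -(x 1 * sin (x 0)), x 1 * cos (x 0)]
noncomputable def s1 (x : R 2) : R 4 := !₂[0, 0, cos (x 0), sin (x 0)]

noncomputable def DX (x : R 2) : R 2 →L[ℝ] R 4 := c0.smulRight (s0 x) + c1.smulRight (s1 x)

theorem DX_apply (x Z : R 2) : DX x Z = Z 0 • s0 x + Z 1 • s1 x := rfl

theorem hasFDerivAt_surf (x : R 2) : HasFDerivAt surf (DX x) x := by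
  rw [← hasFDerivWithinAt_univ, hasFDerivWithinAt_euclidean]
  have h0 : HasFDerivAt (fun x : R 2 => x 0) c0 x := c0.hasFDerivAt
  have h1 : HasFDerivAt (fun x : R 2 => x 1) c1 x := c1.hasFDerivAt
  intro i
  fin_cases i
  · refine (((h0.const_mul 2).cos).congr_fderiv ?_).hasFDerivWithinAt
    ext Z
    simp [DX, s0, s1, c0, c1]
    ring
  · refine (((h0.const_mul 2).sin).congr_fderiv ?_).hasFDerivWithinAt
    ext Z
    simp [DX, s0, s1, c0, c1]
    ring
  · refine ((h1.mul h0.cos).congr_fderiv ?_).hasFDerivWithinAt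
    ext Z
    simp [DX, s0, s1, c0, c1]
    ring
  · refine ((h1.mul h0.sin).congr_fderiv ?_).hasFDerivWithinAt
    ext Z
    simp [DX, s0, s1, c0, c1]
    ring

theorem fderiv_surf (x : R 2) : fderiv ℝ surf x = DX x := (hasFDerivAt_surf x).fderiv

theorem DX_injective (x : R 2) : Function.Injective (DX x) := by
  rw [injective_iff_map_eq_zero]
  intro Z hZ
  rw [DX_apply] at hZ
  have e0 := congrArg (fun v : R 4 => v 0) hZ
  have e1 := congrArg (fun v : R 4 => v 1) hZ
  have e2 := congrArg (fun v : R 4 => v 2) hZ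
  have e3 := congrArg (fun v : R 4 => v 3) hZ
  simp [s0, s1] at e0 e1 e2 e3
  have hs := sin_sq_add_cos_sq (2 * x 0)
  have hs' := sin_sq_add_cos_sq (x 0)
  have hZ0 : Z 0 = 0 := by
    rcases e0 with h | h
    · exact h
    · rcases e1 with h' | h'
      · exact h'
      · rw [h, h'] at hs
        norm_num at hs
  rw [hZ0] at e2 e3
  simp at e2 e3
  have hZ1 : Z 1 = 0 := by
    rcases e2 with h | h
    · exact h
    · rcases e3 with h' | h'
      · exact h'
      · rw [h, h'] at hs'
        norm_num at hs'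
  ext i
  fin_cases i
  · exact hZ0
  · exact hZ1

/-- local left inverse of `surf` -/
noncomputable def linv (θ : ℝ) (x : R 4) : R 2 :=
  !₂[θ + arcsin (x 1 * cos (2 * θ) - x 0 * sin (2 * θ)) / 2,
    x 2 * cos (θ + arcsin (x 1 * cos (2 * θ) - x 0 * sin (2 * θ)) / 2) +
      x 3 * sin (θ + arcsin (x 1 * cos (2 * θ) - x 0 * sin (2 * θ)) / 2)]

theorem linv_surf (x : R 2) : linv (x 0) (surf x) = x := by
  have h : surf x 1 * cos (2 * x 0) - surf x 0 * sin (2 * x 0) = 0 := by
    rw [surf_apply0, surf_apply1]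
    ring
  ext i
  fin_cases i
  · change x 0 + arcsin (surf x 1 * cos (2 * x 0) - surf x 0 * sin (2 * x 0)) / 2 = x 0
    rw [h, arcsin_zero]
    simp
  · change surf x 2 * cos (x 0 + arcsin (surf x 1 * cos (2 * x 0) - surf x 0 * sin (2 * x 0)) / 2)
      + surf x 3 * sin (x 0 + arcsin (surf x 1 * cos (2 * x 0) - surf x 0 * sin (2 * x 0)) / 2)
      = x 1
    rw [h, arcsin_zero, surf_apply2, surf_apply3]
    simp only [zero_div, add_zero]
    linear_combination x 1 * sin_sq_add_cos_sq (x 0)

theorem contDiffAt_linv (x : R 2) : ContDiffAt ℝ ∞ (linv (x 0)) (surf x) := by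
  have hc : ∀ i : Fin 4, ContDiffAt ℝ ∞ (fun y : R 4 => y i) (surf x) := fun i =>
    (EuclideanSpace.proj i : R 4 →L[ℝ] ℝ).contDiff.contDiffAt
  have h : surf x 1 * cos (2 * x 0) - surf x 0 * sin (2 * x 0) = 0 := by
    rw [surf_apply0, surf_apply1]
    ring
  have ha : ContDiffAt ℝ ∞ (fun y : R 4 =>
      x 0 + arcsin (y 1 * cos (2 * x 0) - y 0 * sin (2 * x 0)) / 2) (surf x) := by
    refine contDiffAt_const.add (ContDiffAt.div_const ?_ 2)
    have h1 : ContDiffAt ℝ ∞ (fun y : R 4 => y 1 * cos (2 * x 0) - y 0 * sin (2 * x 0))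
      (surf x) := ((hc 1).mul contDiffAt_const).sub ((hc 0).mul contDiffAt_const)
    have h2 : ContDiffAt ℝ ∞ arcsin (surf x 1 * cos (2 * x 0) - surf x 0 * sin (2 * x 0)) := by
      rw [h]
      exact contDiffAt_arcsin (by norm_num) (by norm_num)
    exact ContDiffAt.comp (g := arcsin) (surf x) h2 h1
  rw [contDiffAt_euclidean]
  intro i
  fin_cases i
  · exact ha
  · exact ((hc 2).mul ha.cos).add ((hc 3).mul ha.sin)

theorem surf_linv (θ : ℝ) (x : R 2)
    (h : 0 < surf x 0 * cos (2 * θ) + surf x 1 * sin (2 * θ)) : surf (linv θ (surf x)) = surf x := by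
  set ε := arcsin (surf x 1 * cos (2 * θ) - surf x 0 * sin (2 * θ)) with hε
  have hS : surf x 1 * cos (2 * θ) - surf x 0 * sin (2 * θ) = sin (2 * x 0 - 2 * θ) := by
    rw [surf_apply0, surf_apply1, sin_sub]
  have hC : surf x 0 * cos (2 * θ) + surf x 1 * sin (2 * θ) = cos (2 * x 0 - 2 * θ) := by
    rw [surf_apply0, surf_apply1, cos_sub]
  rw [hC] at h
  have h1 : sin ε = sin (2 * x 0 - 2 * θ) := by
    rw [hε, hS]
    exact sin_arcsin (neg_one_le_sin _) (sin_le_one _)
  have h2 : cos ε = cos (2 * x 0 - 2 * θ) := by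
    rw [hε, hS, cos_arcsin, ← cos_sq', sqrt_sq h.le]
  set θ' := θ + ε / 2 with hθ'
  have h3 : cos (2 * θ') = cos (2 * x 0) := by
    have : 2 * θ' = 2 * θ + ε := by rw [hθ']; ring
    rw [this, cos_add, h1, h2, ← cos_add]
    congr 1
    ring
  have h4 : sin (2 * θ') = sin (2 * x 0) := by
    have : 2 * θ' = 2 * θ + ε := by rw [hθ']; ring
    rw [this, sin_add, h1, h2, ← sin_add]
    congr 1
    ring
  -- `θ'` and `x 0` differ by a multiple of `π`
  have h5 : sin (x 0 - θ') = 0 := by
    have h6 : cos (2 * (x 0 - θ')) = 1 := by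
      have : 2 * (x 0 - θ') = 2 * x 0 - 2 * θ' := by ring
      rw [this, cos_sub, h3, h4]
      have := sin_sq_add_cos_sq (2 * x 0)
      nlinarith
    have h7 := cos_two_mul (x 0 - θ')
    have h8 := sin_sq_add_cos_sq (x 0 - θ')
    have h9 : sin (x 0 - θ') ^ 2 = 0 := by nlinarith
    exact pow_eq_zero_iff (two_ne_zero) |>.1 h9
  have hL0 : linv θ (surf x) 0 = θ' := rfl
  have hL1 : linv θ (surf x) 1 = surf x 2 * cos θ' + surf x 3 * sin θ' := rfl
  have h6 : linv θ (surf x) 1 = x 1 * cos (x 0 - θ') := by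
    rw [hL1, surf_apply2, surf_apply3, cos_sub]
    ring
  have h7 : cos (x 0 - θ') * cos θ' = cos (x 0) := by
    have h9 := cos_add (x 0 - θ') θ'
    rw [h5, sub_add_cancel] at h9
    linarith
  have h8 : cos (x 0 - θ') * sin θ' = sin (x 0) := by
    have h9 := sin_add (x 0 - θ') θ'
    rw [h5, sub_add_cancel] at h9
    linarith
  ext i
  fin_cases i
  · change cos (2 * linv θ (surf x) 0) = cos (2 * x 0)
    rw [hL0, h3]
  · change sin (2 * linv θ (surf x) 0) = sin (2 * x 0)
    rw [hL0, h4]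
  · change linv θ (surf x) 1 * cos (linv θ (surf x) 0) = x 1 * cos (x 0)
    rw [hL0, h6, mul_assoc, h7]
  · change linv θ (surf x) 1 * sin (linv θ (surf x) 0) = x 1 * sin (x 0)
    rw [hL0, h6, mul_assoc, h8]

/-- near `surf x` all points of the surface are `surf` of their image under `linv` -/
theorem eventually_linv (x : R 2) :
    ∀ᶠ y in 𝓝 (surf x), y ∈ range surf → surf (linv (x 0) y) = y := by
  have h1 : ContinuousAt (fun y : R 4 => y 0 * cos (2 * x 0) + y 1 * sin (2 * x 0)) (surf x) := by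
    have hc : ∀ i : Fin 4, ContinuousAt (fun y : R 4 => y i) (surf x) := fun i =>
      (EuclideanSpace.proj i : R 4 →L[ℝ] ℝ).continuous.continuousAt
    exact ((hc 0).mul continuousAt_const).add ((hc 1).mul continuousAt_const)
  have h2 : 0 < surf x 0 * cos (2 * x 0) + surf x 1 * sin (2 * x 0) := by
    rw [surf_apply0, surf_apply1]
    have := sin_sq_add_cos_sq (2 * x 0)
    nlinarith
  filter_upwards [h1.eventually (lt_mem_nhds h2)] with y hy hr
  obtain ⟨x', rfl⟩ := hr
  exact surf_linv (x 0) x' hy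

/-- the standard parametrization near `surf x` -/
noncomputable def par (x y : R 2) : R 4 := surf (x + y)

theorem fderiv_par (x y : R 2) : HasFDerivAt (par x) (DX (x + y)) y := by
  have h1 : HasFDerivAt (fun y : R 2 => x + y) (ContinuousLinearMap.id ℝ (R 2)) y :=
    (hasFDerivAt_id y).const_add x
  have h2 := (hasFDerivAt_surf (x + y)).comp y h1
  exact h2

theorem param_par (x : R 2) : Param (range surf) (surf x) (par x) where
  smooth := ⟨univ, univ_mem, (contDiff_surf.comp (contDiff_const.add contDiff_id)).contDiffOn⟩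
  base := by rw [par, add_zero]
  immersion := by
    intro Z hZ
    rw [D, (fderiv_par x 0).fderiv, add_zero] at hZ
    exact DX_injective x (by rw [hZ, map_zero])
  image := by
    apply le_antisymm
    · rw [nhdsWithin, le_inf_iff]
      constructor
      · have h : ContinuousAt (par x) 0 := (fderiv_par x 0).continuousAt
        have h' : par x 0 = surf x := by rw [par, add_zero]
        rw [ContinuousAt, h'] at h
        exact h
      · rw [le_principal_iff]
        exact Filter.mem_map.2 (Filter.univ_mem' fun y => ⟨x + y, rfl⟩)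
    · intro V hV
      rw [mem_map] at hV
      have h1 : ContinuousAt (fun z : R 4 => linv (x 0) z - x) (surf x) :=
        (contDiffAt_linv x).continuousAt.sub continuousAt_const
      have h2 : linv (x 0) (surf x) - x = 0 := by rw [linv_surf, sub_self]
      have h3 : ∀ᶠ z in 𝓝 (surf x), linv (x 0) z - x ∈ par x ⁻¹' V := by
        have h4 := h1.eventually_mem (s := par x ⁻¹' V) (by rw [h2]; exact hV)
        exact h4
      rw [mem_nhdsWithin_iff_eventually]
      filter_upwards [h3, eventually_linv x] with z hz hz' hM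
      have h5 : par x (linv (x 0) z - x) = z := by
        rw [par, add_sub_cancel, hz' hM]
      rw [mem_preimage, h5] at hz
      exact hz

theorem isSubmanifold_surf : IsSubmanifold 2 (range surf) := by
  rintro _ ⟨x, rfl⟩
  exact ⟨par x, param_par x⟩

/-- every parametrization is, near the centre, a reparametrization of `surf` -/
theorem trans {p : R 4} {φ : R 2 → R 4} (h : Param (range surf) p φ) :
    ∃ (x : R 2) (χ : R 2 → R 2), surf x = p ∧ χ 0 = x ∧ ContDiffAt ℝ ∞ χ 0 ∧
      Function.Bijective (fderiv ℝ χ 0) ∧ ∀ᶠ y in 𝓝 (0 : R 2), φ y = surf (χ y) := by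
  have hφ : ContDiffAt ℝ ∞ φ 0 := by
    obtain ⟨U, hU, hs⟩ := h.smooth
    exact hs.contDiffAt hU
  have hmem : ∀ᶠ y in 𝓝 (0 : R 2), φ y ∈ range surf := by
    have h1 : range surf ∈ Filter.map φ (𝓝 0) := by
      rw [h.image]
      exact self_mem_nhdsWithin
    exact h1
  obtain ⟨x, hx⟩ : p ∈ range surf := by
    have := hmem.self_of_nhds
    rwa [h.base] at this
  have hb : φ 0 = surf x := by rw [h.base, hx]
  have hχ : ContDiffAt ℝ ∞ (fun y => linv (x 0) (φ y)) 0 := by
    have h2 := contDiffAt_linv x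
    rw [← hb] at h2
    exact h2.comp 0 hφ
  have hev : ∀ᶠ y in 𝓝 (0 : R 2), φ y = surf (linv (x 0) (φ y)) := by
    have h3 : Tendsto φ (𝓝 0) (𝓝 (surf x)) := by
      rw [← hb]
      exact hφ.continuousAt
    filter_upwards [hmem, h3.eventually (eventually_linv x)] with y h4 h5
    exact (h5 h4).symm
  have h0 : linv (x 0) (φ 0) = x := by rw [hb, linv_surf]
  refine ⟨x, fun y => linv (x 0) (φ y), hx, h0, hχ, ?_, hev⟩
  have hinj : Function.Injective (fderiv ℝ (fun y => linv (x 0) (φ y)) 0) := by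
    have h6 : fderiv ℝ φ 0 = (DX x).comp (fderiv ℝ (fun y => linv (x 0) (φ y)) 0) := by
      have h7 : HasFDerivAt (fun y => surf (linv (x 0) (φ y)))
          ((DX x).comp (fderiv ℝ (fun y => linv (x 0) (φ y)) 0)) 0 := by
        have h8 := hasFDerivAt_surf x
        rw [← h0] at h8
        have h9 := h8.comp (0 : R 2) (hχ.differentiableAt (by simp)).hasFDerivAt
        rw [h0] at h9
        exact h9
      exact (h7.congr_of_eventuallyEq hev).fderiv
    rw [injective_iff_map_eq_zero]
    intro Z hZ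
    apply h.immersion
    rw [D, h6, ContinuousLinearMap.comp_apply, hZ, map_zero]
  exact ⟨hinj, (LinearMap.injective_iff_surjective (f :=
    (fderiv ℝ (fun y => linv (x 0) (φ y)) 0 : R 2 →ₗ[ℝ] R 2))).1 hinj⟩

end Pool.Agent.H49.CE
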