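import Pool.Agent.H49.CE.Surf

/-!
# The surface is closed and connected
-/

set_option autoImplicit false

open scoped Topology ContDiff RealInnerProductSpace
open Filter Set Real

namespace Pool.Agent.H49.CE

theorem exists_angle {u v : ℝ} (h : u ^ 2 + v ^ 2 = 1) : ∃ θ : ℝ, u = cos (2 * θ) ∧
    v = sin (2 * θ) := by
  set z : ℂ := ⟨u, v⟩ with hz
  have hn : ‖z‖ = 1 := by
    rw [Complex.norm_def, Complex.normSq_mk]
    have : u * u + v * v = 1 := by linarith
    rw [this, sqrt_one]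
  refine ⟨Complex.arg z / 2, ?_, ?_⟩
  · have h1 := Complex.norm_mul_cos_arg z
    rw [hn, one_mul] at h1
    rw [show 2 * (Complex.arg z / 2) = Complex.arg z by ring, h1]
  · have h1 := Complex.norm_mul_sin_arg z
    rw [hn, one_mul] at h1
    rw [show 2 * (Complex.arg z / 2) = Complex.arg z by ring, h1]

theorem range_surf : range surf = {y : R 4 | y 0 ^ 2 + y 1 ^ 2 = 1 ∧
    y 2 ^ 2 - y 3 ^ 2 = (y 2 ^ 2 + y 3 ^ 2) * y 0 ∧
    2 * y 2 * y 3 = (y 2 ^ 2 + y 3 ^ 2) * y 1} := by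
  ext y
  constructor
  · rintro ⟨x, rfl⟩
    have h1 := sin_sq_add_cos_sq (2 * x 0)
    have h2 := sin_sq_add_cos_sq (x 0)
    refine ⟨?_, ?_, ?_⟩
    · rw [surf_apply0, surf_apply1]
      linarith
    · rw [surf_apply0, surf_apply2, surf_apply3, cos_two_mul']
      linear_combination (-(x 1 ^ 2 * (cos (x 0) ^ 2 - sin (x 0) ^ 2))) * h2
    · rw [surf_apply1, surf_apply2, surf_apply3, sin_two_mul]
      linear_combination (-(x 1 ^ 2 * 2 * sin (x 0) * cos (x 0))) * h2
  · rintro ⟨h1, h2, h3⟩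
    obtain ⟨θ, hu, hv⟩ := exists_angle h1
    have hs := sin_sq_add_cos_sq θ
    have hs2 := sin_sq_add_cos_sq (2 * θ)
    rw [hu] at h2
    rw [hv] at h3
    have h4 : y 2 * sin θ - y 3 * cos θ = 0 := by
      have h5 : (y 2 * sin θ - y 3 * cos θ) ^ 2 = 0 := by
        rw [cos_two_mul'] at h2
        rw [sin_two_mul] at h3
        have e2 : y 2 ^ 2 * (1 - (cos θ ^ 2 - sin θ ^ 2)) = y 3 ^ 2 * (1 + (cos θ ^ 2 - sin θ ^ 2)) := by
          linarith
        -- `2 (y₂ s - y₃ c)² = r² - (y₂² - y₃²) cos 2θ - 2 y₂ y₃ sin 2θ`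
        have e : 2 * (y 2 * sin θ - y 3 * cos θ) ^ 2 =
            (y 2 ^ 2 + y 3 ^ 2) * (sin θ ^ 2 + cos θ ^ 2) - (y 2 ^ 2 - y 3 ^ 2) *
            (cos θ ^ 2 - sin θ ^ 2) - 2 * y 2 * y 3 * (2 * sin θ * cos θ) := by ring
        have e3 : (cos θ ^ 2 - sin θ ^ 2) ^ 2 + (2 * sin θ * cos θ) ^ 2 = 1 := by
          have : (cos θ ^ 2 - sin θ ^ 2) ^ 2 + (2 * sin θ * cos θ) ^ 2 =
            (sin θ ^ 2 + cos θ ^ 2) ^ 2 := by ring
          rw [this, hs]
          norm_num
        have e4 : (y 2 ^ 2 - y 3 ^ 2) * (cos θ ^ 2 - sin θ ^ 2) +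
            2 * y 2 * y 3 * (2 * sin θ * cos θ) = (y 2 ^ 2 + y 3 ^ 2) := by
          rw [h2, h3]
          linear_combination (y 2 ^ 2 + y 3 ^ 2) * e3
        have e5 : 2 * (y 2 * sin θ - y 3 * cos θ) ^ 2 = 0 := by
          rw [e, hs]
          linarith
        linarith
      exact pow_eq_zero_iff two_ne_zero |>.1 h5
    refine ⟨!₂[θ, y 2 * cos θ + y 3 * sin θ], ?_⟩
    ext i
    fin_cases i
    · change cos (2 * θ) = y 0
      exact hu.symm
    · change sin (2 * θ) = y 1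
      exact hv.symm
    · change (y 2 * cos θ + y 3 * sin θ) * cos θ = y 2
      linear_combination (-(sin θ)) * h4 + y 2 * hs
    · change (y 2 * cos θ + y 3 * sin θ) * sin θ = y 3
      linear_combination (cos θ) * h4 + y 3 * hs

theorem isClosed_surf : IsClosed (range surf) := by
  rw [range_surf]
  have hc : ∀ i : Fin 4, Continuous fun y : R 4 => y i := fun i =>
    (EuclideanSpace.proj i : R 4 →L[ℝ] ℝ).continuous
  have h0 := hc 0
  have h1 := hc 1
  have h2 := hc 2
  have h3 := hc 3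
  refine (isClosed_eq (by fun_prop) (by fun_prop)).inter
    ((isClosed_eq (by fun_prop) (by fun_prop)).inter (isClosed_eq (by fun_prop) (by fun_prop)))

theorem isConnected_surf : IsConnected (range surf) :=
  isConnected_range contDiff_surf.continuous

end Pool.Agent.H49.CE
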